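import Mathlib
import Pool.Agent.Lib.MP_2596c2_co.Defs
import Pool.Agent.Lib.MP_2596c2_co.Hypercube
import Pool.Agent.Lib.MP_2596c2_co.Kmn
import Pool.Agent.Lib.MP_2596c2_co.KnGapFree

/-!
# MP_2596c2_co, Q1: the feasible sets of `K_{2n}`, `K_{m,n}` and `Q_n` are gap-free

The definitions (`IsIntervalCyclic`, `feasibleSet`, `GapFree`, `hypercube`) are in
`Pool.Agent.Lib.MP_2596c2_co.Defs`.

* `K_{2n}`: for a colouring with `t ≥ 4n-3` colours, the starting points of the arcs of colours are
  followed around the circle of residues mod `t`; an orbit count gives `t ≤ 4n-3`, and equality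
  forces `3 ∣ n` (an Erdős–Gallai type inequality along closed chains of four steps). Conversely all
  `t` from `2n-1` to `4n-5`, and to `4n-3` when `3 ∣ n`, are obtained from two or three clusters
  of vertices.
* `K_{m,n}`: an orbit count for the arcs of the two sides gives `t ≤ m+n`.
* `Q_n`: for large `t` a cyclic colouring lifts to an interval colouring.
-/

namespace Pool.Agent.Results.MP_2596c2_co.GapFreeFeasibleSets

open Pool.Agent.MP2596c2

/-- For all `m, n ≥ 1` the feasible sets of `K_{2n}`, `K_{m,n}` and `Q_n` are gap-free. -/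
theorem result (m n : ℕ) (hm : 1 ≤ m) (hn : 1 ≤ n) :
    GapFree (feasibleSet (⊤ : SimpleGraph (Fin (2 * n)))) ∧
      GapFree (feasibleSet (completeBipartiteGraph (Fin m) (Fin n))) ∧
      GapFree (feasibleSet (hypercube n)) :=
  ⟨gapFree_complete n hn, gapFree_completeBipartite m n hm hn, gapFree_hypercube n⟩

end Pool.Agent.Results.MP_2596c2_co.GapFreeFeasibleSets
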